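import Pool.Agent.H33.CpDefs

set_option autoImplicit false

namespace Pool.Agent.Results.MP_0df558_gt.Q1

open Pool.Agent.H33.Cp Filter Topology Set

lemma free1 (S : Set ℝ) (hS : ¬ S.Countable) (u : ℝ → Ultrafilter ℝ) :
    ∃ A ⊆ S, ¬ A.Countable ∧ ∀ a ∈ A, u a ≠ pure a → A ∉ u a := by
  by_contra hcon
  push Not at hcon
  have hinf : S.Infinite := fun h => hS h.countable
  have : Infinite S := hinf.to_subtype
  have hU : Uncountable S := by
    rw [← not_countable_iff]; exact hS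
  obtain ⟨e⟩ : Nonempty (S × S ≃ S) := by
    rw [← Cardinal.eq]; simp
  let T : S → Set ℝ := fun x => range fun y => (e (x, y) : ℝ)
  have hT : ∀ x, ∃ a ∈ T x, u a ≠ pure a ∧ T x ∈ u a := by
    intro x
    refine hcon (T x) (by rintro _ ⟨y, rfl⟩; exact (e (x, y)).2) fun hc => ?_
    have hi : Function.Injective fun y => (e (x, y) : ℝ) := fun y y' h =>
      (Prod.mk.inj (e.injective (Subtype.ext h))).2
    simp only [T] at hc
    rw [← image_univ] at hc
    exact not_countable_univ (countable_of_injective_of_countable_image hi.injOn hc)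
  choose a ha1 ha2 ha3 using hT
  have hdis : ∀ x x', a x' ∈ T x → x' = x := by
    intro x x' h
    obtain ⟨y, hy⟩ := h
    obtain ⟨y', hy'⟩ := ha1 x'
    exact (Prod.mk.inj (e.injective (Subtype.ext (hy'.trans hy.symm)))).1
  have hai : Function.Injective a := fun x x' h => hdis x' x (h ▸ ha1 x')
  obtain ⟨_, ⟨x, rfl⟩, h1, h2⟩ := hcon (range a)
    (by rintro _ ⟨x, rfl⟩; obtain ⟨y, hy⟩ := ha1 x; rw [← hy]; exact (e (x, y)).2)
    (fun hc => by
      rw [← image_univ] at hc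
      exact not_countable_univ (countable_of_injective_of_countable_image hai.injOn hc))
  apply h1
  have h3 : ({a x} : Set ℝ) ∈ u (a x) := by
    refine mem_of_superset (inter_mem h2 (ha3 x)) ?_
    rintro _ ⟨⟨x', rfl⟩, h⟩
    rw [hdis x x' h]; rfl
  exact Ultrafilter.eq_of_le (le_pure_iff.2 h3)

lemma freeN (n : ℕ) (S : Set ℝ) (hS : ¬ S.Countable) (t : ℝ → ℕ → Ultrafilter ℝ) :
    ∃ A ⊆ S, ¬ A.Countable ∧ ∀ a ∈ A, ∀ i < n, t a i ≠ pure a → A ∉ t a i := by
  induction n with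
  | zero => exact ⟨S, Subset.rfl, hS, fun _ _ i hi => absurd hi (Nat.not_lt_zero i)⟩
  | succ n ih =>
    obtain ⟨A, h1, h2, h3⟩ := ih
    obtain ⟨B, k1, k2, k3⟩ := free1 A h2 fun a => t a n
    refine ⟨B, k1.trans h1, k2, fun a ha i hi hne => ?_⟩
    rcases Nat.lt_succ_iff_lt_or_eq.1 hi with hi | rfl
    · exact fun hB => h3 a (k1 ha) i hi hne (mem_of_superset hB k1)
    · exact k3 a ha hne

lemma freeFin (S : Set ℝ) (hS : ¬ S.Countable) (t : ℝ → Finset (Ultrafilter ℝ)) :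
    ∃ A ⊆ S, ¬ A.Countable ∧ ∀ a ∈ A, ∀ u ∈ t a, u ≠ pure a → A ∉ u := by
  obtain ⟨n, hn⟩ : ∃ n, ¬ {a ∈ S | (t a).toList.length = n}.Countable := by
    by_contra hc
    push Not at hc
    refine hS ((countable_iUnion hc).mono fun a ha => mem_iUnion.2 ⟨(t a).toList.length, And.intro ha rfl⟩)
  obtain ⟨A, h1, h2, h3⟩ := freeN n _ hn fun a i => (t a).toList.getD i (pure a)
  refine ⟨A, fun a ha => (h1 ha).1, h2, fun a ha u hu hne => ?_⟩
  obtain ⟨i, hi, rfl⟩ := List.getElem_of_mem (Finset.mem_toList.2 hu)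
  have := h3 a ha i ((h1 ha).2 ▸ hi)
  simp only [List.getD_eq_getElem _ _ hi] at this
  exact this hne

noncomputable def chi (A : Set ℝ) : Cp (Ultrafilter ℝ) :=
  ⟨indicator {u | A ∈ u} fun _ => 1,
    IsClopen.continuous_indicator ⟨ultrafilter_isClosed_basic A, ultrafilter_isOpen_basic A⟩
      continuous_const⟩

lemma basic (U : Set (Cp (Ultrafilter ℝ))) (hU : IsOpen U) (A : Set ℝ) (h : chi A ∈ U) :
    ∃ t : Finset (Ultrafilter ℝ), ∀ B : Set ℝ, (∀ u ∈ t, B ∈ u ↔ A ∈ u) → chi B ∈ U := by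
  obtain ⟨V, hV, rfl⟩ := isOpen_induced_iff.1 hU
  obtain ⟨t, W, h1, h2⟩ := isOpen_pi_iff.1 hV _ h
  refine ⟨t, fun B hB => h2 fun u hu => ?_⟩
  have : (chi B).1 u = (chi A).1 u := by
    by_cases hA : A ∈ u
    · simp [chi, hA, (hB u hu).2 hA]
    · simp [chi, hA, mt (hB u hu).1 hA]
  rw [this]; exact (h1 u hu).2

lemma cofin (U : Set (Cp (Ultrafilter ℝ))) (hU : IsOpen U) (h : chi ∅ ∈ U) :
    {a : ℝ | chi {a} ∉ U}.Finite := by
  obtain ⟨t, ht⟩ := basic U hU ∅ h
  refine (t.finite_toSet.preimage (f := fun a : ℝ => (pure a : Ultrafilter ℝ))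
    Ultrafilter.pure_injective.injOn).subset fun a ha => ?_
  by_contra hc
  refine ha (ht _ fun u hu => ⟨fun h1 => ?_, fun h1 => absurd h1 u.empty_notMem⟩)
  have : u = pure a := Ultrafilter.eq_of_le (le_pure_iff.2 h1)
  rw [this] at hu
  exact absurd hu hc

lemma coz (U : Set (Cp (Ultrafilter ℝ))) (hU : IsCozero U) (h : chi ∅ ∉ U) :
    {a : ℝ | chi {a} ∈ U}.Countable := by
  obtain ⟨g, hg, rfl⟩ := hU
  have h0 : g (chi ∅) = 0 := by simpa using h
  refine (countable_iUnion fun n : ℕ => (cofin {f | |g f| < 1 / ((n : ℝ) + 1)}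
    (isOpen_lt hg.abs continuous_const) (by simp only [mem_setOf_eq, h0, abs_zero]; positivity)).countable).mono
    fun a ha => ?_
  have h1 : 0 < |g (chi {a})| := abs_pos.2 (by simpa using ha)
  obtain ⟨n, hn⟩ := exists_nat_one_div_lt h1
  exact mem_iUnion.2 ⟨n, not_lt.2 hn.le⟩

theorem result : ∃ (X : Type) (_ : TopologicalSpace X), CompactSpace X ∧ T2Space X ∧
    ¬ ∃ F : Set (Set (Cp X)), (∀ U ∈ F, IsCozero U) ∧ T0Separating F ∧
      WeaklySigmaPointFinite F := by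
  refine ⟨Ultrafilter ℝ, inferInstance, inferInstance, inferInstance, ?_⟩
  rintro ⟨F, hc, hs, G, -, hG⟩
  have ho : ∀ U ∈ F, IsOpen U := by
    intro U hU
    obtain ⟨g, hg, rfl⟩ := hc U hU
    exact (isClosed_singleton.preimage hg).isOpen_compl
  have pc : ∀ z, {U | U ∈ F ∧ z ∈ U}.Countable := by
    intro z
    refine ((to_countable {n | {U | U ∈ G n ∧ z ∈ U}.Finite}).biUnion
      fun n hn => Set.Finite.countable hn).mono ?_
    rintro U ⟨h1, h2⟩
    rw [hG z] at h1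
    obtain ⟨n, hn, h3⟩ := mem_iUnion₂.1 h1
    exact mem_iUnion₂.2 ⟨n, hn, h3, h2⟩
  let N : Set ℝ := ⋃ U ∈ {U | U ∈ F ∧ chi ∅ ∈ U}, {a : ℝ | chi {a} ∉ U}
  have hN : N.Countable := (pc _).biUnion fun U hU => (cofin U (ho U hU.1) hU.2).countable
  have hN' : ¬ Nᶜ.Countable := fun h => not_countable_univ (α := ℝ) (by
    rw [← union_compl_self N]; exact hN.union h)
  have hch : ∀ a, ∃ U, a ∉ N → U ∈ F ∧ chi ∅ ∉ U ∧ chi {a} ∈ U := by
    intro a
    by_cases ha : a ∈ N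
    · exact ⟨∅, fun h => absurd ha h⟩
    have hne : chi ∅ ≠ chi {a} := by
      intro h
      have := congrFun (congrArg Subtype.val h) (pure a)
      simp [chi] at this
    obtain ⟨U, hU, h1⟩ := hs _ _ hne
    refine ⟨U, fun _ => ⟨hU, ?_⟩⟩
    by_cases h2 : chi ∅ ∈ U
    · have h3 : chi {a} ∈ U := by
        by_contra h3
        exact ha (mem_iUnion₂.2 ⟨U, ⟨hU, h2⟩, h3⟩)
      rw [inter_eq_right.2 (by rintro _ (rfl | rfl) <;> assumption), ncard_pair hne] at h1
      omega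
    · refine ⟨h2, ?_⟩
      by_contra h3
      have : U ∩ {chi ∅, chi {a}} = ∅ := by
        ext x
        simp only [mem_inter_iff, mem_insert_iff, mem_singleton_iff, mem_empty_iff_false, iff_false]
        rintro ⟨h, rfl | rfl⟩ <;> contradiction
      rw [this, ncard_empty] at h1
      omega
  choose W hW using hch
  have hb : ∀ a, ∃ t : Finset (Ultrafilter ℝ), a ∉ N →
      ∀ B : Set ℝ, (∀ u ∈ t, B ∈ u ↔ {a} ∈ u) → chi B ∈ W a := by
    intro a
    by_cases ha : a ∈ N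
    · exact ⟨∅, fun h => absurd ha h⟩
    · obtain ⟨t, ht⟩ := basic _ (ho _ (hW a ha).1) {a} (hW a ha).2.2
      exact ⟨t, fun _ => ht⟩
  choose t ht using hb
  obtain ⟨A, h1, h2, h3⟩ := freeFin _ hN' t
  apply h2
  refine (((pc (chi A)).mono (inter_subset_left (t := {U | chi ∅ ∉ U}))).biUnion
    fun U hU => coz U (hc U hU.1.1) hU.2).mono fun a ha => ?_
  have ha' : a ∉ N := h1 ha
  refine mem_iUnion₂.2 ⟨W a, ⟨⟨(hW a ha').1, ht a ha' A fun u hu => ⟨fun h => ?_, fun h => ?_⟩⟩,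
    (hW a ha').2.1⟩, (hW a ha').2.2⟩
  · by_cases hu' : u = pure a
    · rw [hu']; rfl
    · exact absurd h (h3 a ha u hu hu')
  · exact mem_of_superset h (singleton_subset_iff.2 ha)

end Pool.Agent.Results.MP_0df558_gt.Q1
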